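import Mathlib
import Pool.Agent.Q97.RS.Par
import Pool.Agent.TH297.QC.Final
set_option autoImplicit false

/-!
# The restriction conjecture for the paraboloid: additively structured sets in physical space

Let `d = m + 1 ≥ 2` and let `E` be the extension operator of the full paraboloid
`{(ξ, |ξ|²) : ξ ∈ ℝ^m}` in `ℝ^d`; on functions supported in `[-1,1]^m` it is the extension operator
of the truncated paraboloid. Let `A` be a convex set (or a union of at most `N` convex sets) of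
finite measure, of ANY shape, size and position (for instance the cube `[-1,1]^m`), and let `f` be
an ARBITRARY measurable function with `|f| ≤ 1_A`. With constants that depend only on `d` and `N`:

* `∫∫ |Ef(w+ξ-η)|² Φ(ξ) Φ(η) dξ dη ≤ C |A|^{(d-1)/d} ‖Φ‖²_{2d/(d+1)}` for all `w ∈ ℝ^d`, `Φ ≥ 0`;
* `|B| ∫_S |Ef|² ≤ C |A|^{(d-1)/d} |S+B|^{(d+1)/d}` for all sets `S`, `B`;
* if `|Ef| ≥ l` on `S`, the additive energy of `S` is at most `C l^{-2} |A|^{(d-1)/d} |S|^{2+1/d}`;
* for `q > 2d/(d-1)` and `1/p = 1 - (d+1)/((d-1) q)` (the whole scaling line of the conjecture)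
  `∫ |Ef| Φ ≤ C_q K^{1+1/(2d)} |A|^{1/p} ‖Φ‖_{q'}` for all test functions `Φ` whose superlevel
  sets `{Φ > t}` have a sum set with a set of comparable measure which is at most `K` times larger.

The exponents of the first three statements are those of the endpoint `p = q = 2d/(d-1)`. For
`A = [-1,1]^m` the last one is the conjectured bound of `Ef`, `f` bounded, against such `Φ`, for all
`q > 2d/(d-1)`.
-/

namespace Pool.Agent.Results.MP_b7167f_an.AdditiveStructure

open MeasureTheory Set Complex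
open scoped ENNReal NNReal RealInnerProductSpace Pointwise

/-- The extension operator of the paraboloid in `ℝ^(m+1)`:
`Ef(x,t) = ∫ exp(2πi(ξ·x + t|ξ|²)) f(ξ) dξ`. -/
noncomputable def ext {m : ℕ} (f : EuclideanSpace ℝ (Fin m) → ℂ)
    (z : EuclideanSpace ℝ (Fin m) × ℝ) : ℂ :=
  ∫ ξ : EuclideanSpace ℝ (Fin m),
    cexp ((2 * Real.pi * (⟪ξ, z.1⟫ + z.2 * ‖ξ‖ ^ 2) : ℝ) * I) * f ξ

/-- `A` is a union of `N` convex sets (which may be empty, may coincide and may overlap), of finite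
measure. -/
def UnionOfConvex {m : ℕ} (N : ℕ) (A : Set (EuclideanSpace ℝ (Fin m))) : Prop :=
  volume A ≠ ∞ ∧ ∃ K : Fin N → Set (EuclideanSpace ℝ (Fin m)), (∀ i, Convex ℝ (K i)) ∧ A = ⋃ i, K i

/-- `f` is measurable and `|f| ≤ 1_A` almost everywhere -/
def Dominated {m : ℕ} (A : Set (EuclideanSpace ℝ (Fin m)))
    (f : EuclideanSpace ℝ (Fin m) → ℂ) : Prop :=
  AEStronglyMeasurable f volume ∧ (∀ᵐ ξ, ‖f ξ‖ ≤ 1) ∧ ∀ᵐ ξ, ξ ∉ A → f ξ = 0

/-- the additive energy of a set: the measure of the set of the triples `(a, b, c)` of its elements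
such that `a + b - c` is also an element -/
noncomputable def energy {m : ℕ} (S : Set (EuclideanSpace ℝ (Fin m) × ℝ)) : ℝ≥0∞ :=
  (volume.prod (volume.prod volume)) {p : (EuclideanSpace ℝ (Fin m) × ℝ) ×
    (EuclideanSpace ℝ (Fin m) × ℝ) × (EuclideanSpace ℝ (Fin m) × ℝ) |
    p.1 ∈ S ∧ p.2.1 ∈ S ∧ p.2.2 ∈ S ∧ p.1 + p.2.1 - p.2.2 ∈ S}

/-- The superlevel sets `{Φ > t}` have additive structure: for each `t` there is a set `B`
(for instance `{Φ > t}` itself, or its set of negatives) of at least comparable measure such that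
the sum set `{Φ > t} + B` is of comparable measure. -/
def Structured {m : ℕ} (K : ℝ≥0) (Φ : EuclideanSpace ℝ (Fin m) × ℝ → ℝ≥0) : Prop :=
  ∀ t : ℝ≥0, ∃ B : Set (EuclideanSpace ℝ (Fin m) × ℝ), volume {x | t < Φ x} ≤ K * volume B ∧
    volume ({x | t < Φ x} + B) ≤ K * volume {x | t < Φ x}

/-- the two-point inequality with constant `C`, at the endpoint -/
def TwoPointBound {m : ℕ} (C : ℝ≥0∞) (F : EuclideanSpace ℝ (Fin m) × ℝ → ℂ) : Prop :=
  ∀ (w : EuclideanSpace ℝ (Fin m) × ℝ) (Φ : EuclideanSpace ℝ (Fin m) × ℝ → ℝ≥0), Measurable Φ →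
    ∫⁻ ξ, ∫⁻ η, ‖F (w + ξ - η)‖ₑ ^ 2 * (Φ ξ * Φ η) ≤
      C * (∫⁻ x, (Φ x : ℝ≥0∞) ^ (2 * ((m : ℝ) + 1) / (m + 2))) ^ (((m : ℝ) + 2) / (m + 1))

/-- `|B| ∫_S |F|² ≤ C |S+B|^{(d+1)/d}`, `d = m + 1` -/
def SumSetBound {m : ℕ} (C : ℝ≥0∞) (F : EuclideanSpace ℝ (Fin m) × ℝ → ℂ) : Prop :=
  ∀ S B : Set (EuclideanSpace ℝ (Fin m) × ℝ), MeasurableSet S →
    volume B * ∫⁻ ξ in S, ‖F ξ‖ₑ ^ 2 ≤ C * volume (S + B) ^ (((m : ℝ) + 2) / (m + 1))

/-- `l²` times the additive energy of a set on which `|F| ≥ l` is at most `C |S|^{2+1/d}`,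
`d = m + 1` -/
def EnergyBound {m : ℕ} (C : ℝ≥0∞) (F : EuclideanSpace ℝ (Fin m) × ℝ → ℂ) : Prop :=
  ∀ (l : ℝ≥0∞) (S : Set (EuclideanSpace ℝ (Fin m) × ℝ)), MeasurableSet S →
    (∀ ξ ∈ S, l ≤ ‖F ξ‖ₑ) → l ^ 2 * energy S ≤ C * volume S ^ (2 + 1 / ((m : ℝ) + 1))

/-- `∫ |F| Φ ≤ C K^{1+1/(2d)} ‖Φ‖_{q'}`, `d = m + 1`, for test functions with structured superlevel
sets -/
def StructuredBound {m : ℕ} (q : ℝ) (C : ℝ≥0∞) (F : EuclideanSpace ℝ (Fin m) × ℝ → ℂ) : Prop :=
  ∀ (K : ℝ≥0) (Φ : EuclideanSpace ℝ (Fin m) × ℝ → ℝ≥0), 1 ≤ K → Measurable Φ → Structured K Φ →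
    ∫⁻ ξ, ‖F ξ‖ₑ * Φ ξ ≤ C * (K : ℝ≥0∞) ^ (1 + 1 / (2 * ((m : ℝ) + 1))) *
      (∫⁻ ξ, (Φ ξ : ℝ≥0∞) ^ (q / (q - 1))) ^ (1 - 1 / q)

/-! ### Proofs -/

open Q97.RS (TP CM CM_pos pext par_majorant)

variable {m : ℕ}

instance inst_right (m : ℕ) :
    (volume : Measure (EuclideanSpace ℝ (Fin m) × ℝ)).IsAddRightInvariant := by
  have h : (Measure.prod (volume : Measure (EuclideanSpace ℝ (Fin m)))
    (volume : Measure ℝ)).IsAddLeftInvariant := inferInstance
  have h2 : (volume : Measure (EuclideanSpace ℝ (Fin m) × ℝ)).IsAddLeftInvariant := h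
  exact IsAddLeftInvariant.isAddRightInvariant

theorem ext_eq (f : EuclideanSpace ℝ (Fin m) → ℂ) : ext f = pext f := rfl

theorem zero_case {A : Set (EuclideanSpace ℝ (Fin m))} (h0 : volume A = 0)
    {f : EuclideanSpace ℝ (Fin m) → ℂ} (hf : Dominated A f) : ext f = fun _ => 0 := by
  funext z
  unfold ext
  have h1 : ∀ᵐ ξ : EuclideanSpace ℝ (Fin m), ξ ∉ A := measure_eq_zero_iff_ae_notMem.1 h0
  rw [← integral_zero (EuclideanSpace ℝ (Fin m)) ℂ]
  refine integral_congr_ae ?_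
  filter_upwards [h1, hf.2.2] with ξ h2 h3
  rw [h3 h2, mul_zero]

/-- the constant -/
noncomputable def C0 (m N : ℕ) : ℝ := TH297.QC.CU m N + 1

theorem C0_pos (hm : 1 ≤ m) (N : ℕ) : 0 < C0 m N := by
  have := TH297.QC.CU_nonneg hm N
  unfold C0
  linarith

theorem basic (hm : 1 ≤ m) {N : ℕ} {A : Set (EuclideanSpace ℝ (Fin m))}
    (hA : UnionOfConvex N A) {f : EuclideanSpace ℝ (Fin m) → ℂ} (hf : Dominated A f) :
    Measurable (ext f) ∧ TP volume (2 + 2 / (m : ℝ)) (ext f)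
      (ENNReal.ofReal (CM (2 + 2 / (m : ℝ)) * (C0 m N) ^ ((m : ℝ) / (m + 1))) *
        volume A ^ ((m : ℝ) / (m + 1))) ∧
      ∀ z, ‖ext f z‖ₑ ≤ volume A := by
  obtain ⟨hfin, hU⟩ := hA
  have hm0 : (0 : ℝ) < m := by exact_mod_cast hm
  have hq : (2 : ℝ) < 2 + 2 / (m : ℝ) := by
    have : (0 : ℝ) < 2 / m := by positivity
    linarith
  have hnull : NullMeasurableSet A volume := TH297.QC.UC_null hU
  rcases eq_or_ne (volume A) 0 with h0 | h0
  · rw [zero_case h0 hf]
    refine ⟨measurable_const, ?_, ?_⟩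
    · intro w Φ _
      simp
    · simp
  set A' : Set (EuclideanSpace ℝ (Fin m)) := toMeasurable volume A with hA'
  have hA'm : MeasurableSet A' := measurableSet_toMeasurable _ _
  have hae : A' =ᵐ[volume] A := hnull.toMeasurable_ae_eq
  have hvol : volume A' = volume A := measure_toMeasurable _
  set G : EuclideanSpace ℝ (Fin m) → ℝ≥0 := A'.indicator fun _ => 1 with hG
  have hGm : Measurable G := measurable_const.indicator hA'm
  have hGint : ∫⁻ ξ, (G ξ : ℝ≥0∞) = volume A := by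
    rw [← hvol, ← lintegral_indicator_one hA'm]
    refine lintegral_congr fun ξ => ?_
    by_cases h : ξ ∈ A'
    · simp [hG, h]
    · simp [hG, h]
  have hfG : ∀ᵐ ξ, ‖f ξ‖ ≤ G ξ := by
    filter_upwards [hf.2.1, hf.2.2, hae.mem_iff] with ξ h1 h2 h3
    by_cases h : ξ ∈ A'
    · simpa [hG, indicator_of_mem h] using h1
    · rw [h2 fun h4 => h (h3.2 h4)]
      simp [hG, indicator_of_notMem h]
  have hextG : ∀ z, pext (fun ξ => ((G ξ : ℝ) : ℂ)) z = TH297.QC.ext (TH297.QC.ind A) z.1 z.2 := by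
    intro z
    unfold pext TH297.QC.ext
    refine integral_congr_ae ?_
    filter_upwards [hae.mem_iff] with ξ h3
    congr 1
    unfold TH297.QC.ind
    by_cases h : ξ ∈ A
    · simp [hG, h, h3.2 h]
    · simp only [hG, indicator_of_notMem (fun h4 => h (h3.1 h4) : ξ ∉ A')]
      simp [h]
  set V : ℝ := (volume A).toReal with hV
  have hVpos : 0 < V := ENNReal.toReal_pos h0 hfin
  have hVe : volume A = ENNReal.ofReal V := (ENNReal.ofReal_toReal hfin).symm
  have hC0 := C0_pos hm N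
  set qc : ℝ := 2 + 2 / (m : ℝ) with hqc
  set L : ℝ := (C0 m N * V) ^ (1 / qc) with hL
  have hLpos : 0 < L := by positivity
  have hLq : L ^ qc = C0 m N * V := by
    rw [hL, ← Real.rpow_mul (by positivity), one_div, inv_mul_cancel₀ (by positivity),
      Real.rpow_one]
  have hw : ∀ s : ℝ, 0 < s → volume {z : EuclideanSpace ℝ (Fin m) × ℝ |
      s < ‖pext (fun ξ => ((G ξ : ℝ) : ℂ)) z‖} ≤ ENNReal.ofReal ((L / s) ^ qc) := by
    intro s hs
    have h1 := TH297.QC.weak_union hm hU hfin hs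
    simp only [hextG]
    rw [← hqc] at h1
    refine h1.trans ?_
    rw [hVe, ← ENNReal.ofReal_mul (by
      have := TH297.QC.CU_nonneg hm N
      unfold TH297.QC.CU at this
      positivity)]
    refine ENNReal.ofReal_le_ofReal ?_
    rw [Real.div_rpow hLpos.le hs.le, hLq, Real.rpow_neg hs.le, div_eq_mul_inv]
    have h2 : TH297.QC.CU m N ≤ C0 m N := by unfold C0; linarith
    unfold TH297.QC.CU at h2
    rw [← hqc] at h2
    have h3 : 0 ≤ (s ^ qc)⁻¹ := by positivity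
    calc _ = (2 ^ N * (TH297.QC.CW m * (2 ^ N) ^ qc)) * ((s ^ qc)⁻¹ * V) := by ring
      _ ≤ C0 m N * ((s ^ qc)⁻¹ * V) := mul_le_mul_of_nonneg_right h2 (by positivity)
      _ = _ := by ring
  obtain ⟨k1, k2⟩ := par_majorant hq hGm (by rw [hGint]; exact hfin) hLpos hw hf.1 hfG
  refine ⟨k1, ?_, fun z => ?_⟩
  · rw [ext_eq]
    convert k2 using 1
    rw [hVe, ENNReal.ofReal_rpow_of_pos hVpos, ← ENNReal.ofReal_mul (by
      have := CM_pos hq
      positivity)]
    congr 1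
    rw [mul_assoc]
    congr 1
    rw [← Real.mul_rpow hC0.le hVpos.le, hL, ← Real.rpow_natCast, ← Real.rpow_mul (by positivity)]
    congr 1
    rw [hqc]
    field_simp
    norm_num
  · calc ‖ext f z‖ₑ ≤ ∫⁻ ξ, ‖cexp ((2 * Real.pi * (⟪ξ, z.1⟫ + z.2 * ‖ξ‖ ^ 2) : ℝ) * I) * f ξ‖ₑ :=
          enorm_integral_le_lintegral_enorm _
      _ ≤ ∫⁻ ξ, (G ξ : ℝ≥0∞) := by
          refine lintegral_mono_ae ?_
          filter_upwards [hfG] with ξ h1
          rw [enorm_mul]
          have h2 : ‖cexp ((2 * Real.pi * (⟪ξ, z.1⟫ + z.2 * ‖ξ‖ ^ 2) : ℝ) * I)‖ₑ = 1 := by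
            rw [← ofReal_norm, Complex.norm_exp_ofReal_mul_I, ENNReal.ofReal_one]
          rw [h2, one_mul, ← ofReal_norm, ← ENNReal.ofReal_coe_nnreal]
          exact ENNReal.ofReal_le_ofReal h1
      _ = volume A := hGint

theorem result (m : ℕ) (hm : 1 ≤ m) (N : ℕ) :
    (∃ C : ℝ≥0, ∀ A : Set (EuclideanSpace ℝ (Fin m)), UnionOfConvex N A →
      ∀ f : EuclideanSpace ℝ (Fin m) → ℂ, Dominated A f →
        TwoPointBound (C * volume A ^ ((m : ℝ) / (m + 1))) (ext f) ∧
        SumSetBound (C * volume A ^ ((m : ℝ) / (m + 1))) (ext f) ∧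
        EnergyBound (C * volume A ^ ((m : ℝ) / (m + 1))) (ext f)) ∧
    (∀ q : ℝ, 2 + 2 / (m : ℝ) < q → ∃ C : ℝ≥0, ∀ A : Set (EuclideanSpace ℝ (Fin m)),
      UnionOfConvex N A → ∀ f : EuclideanSpace ℝ (Fin m) → ℂ, Dominated A f →
        StructuredBound q (C * volume A ^ (1 - (1 + 2 / (m : ℝ)) / q)) (ext f)) := by
  have hm0 : (0 : ℝ) < m := by exact_mod_cast hm
  have h2m : (0 : ℝ) < 2 / m := by positivity
  have hqc : (2 : ℝ) < 2 + 2 / (m : ℝ) := by linarith
  have hCM := CM_pos hqc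
  have hC0 := C0_pos hm N
  set C1 : ℝ := CM (2 + 2 / (m : ℝ)) * (C0 m N) ^ ((m : ℝ) / (m + 1)) with hC1
  have hC1pos : 0 < C1 := by positivity
  have x1 : (2 + 2 / (m : ℝ)) / (2 + 2 / (m : ℝ) - 1) = 2 * ((m : ℝ) + 1) / (m + 2) := by
    have : (m : ℝ) ≠ 0 := hm0.ne'
    have h3 : 2 + 2 / (m : ℝ) - 1 = (m + 2) / m := by field_simp; ring
    rw [h3]
    field_simp
  have x2 : 2 - 2 / (2 + 2 / (m : ℝ)) = ((m : ℝ) + 2) / (m + 1) := by
    have h3 : 2 + 2 / (m : ℝ) = 2 * (m + 1) / m := by field_simp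
    rw [h3]
    field_simp
    ring
  have x3 : 3 - 2 / (2 + 2 / (m : ℝ)) = 2 + 1 / ((m : ℝ) + 1) := by
    have h3 : 2 + 2 / (m : ℝ) = 2 * (m + 1) / m := by field_simp
    rw [h3]
    field_simp
    ring
  constructor
  · refine ⟨C1.toNNReal, fun A hA f hf => ?_⟩
    obtain ⟨hmeas, hTP, -⟩ := basic hm hA hf
    have hC : ((C1.toNNReal : ℝ≥0) : ℝ≥0∞) = ENNReal.ofReal C1 := rfl
    rw [hC]
    refine ⟨fun w Φ hΦ => ?_, fun S B hS => ?_, fun l S hS hl => ?_⟩
    · have h1 := hTP w Φ hΦ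
      rw [x1, x2] at h1
      refine le_trans (le_of_eq ?_) h1
      have hΦe : Measurable fun x => (Φ x : ℝ≥0∞) := hΦ.coe_nnreal_ennreal
      have hF2 : Measurable fun v => ‖ext f v‖ₑ ^ 2 := hmeas.enorm.pow_const 2
      have mq : Measurable fun q : (EuclideanSpace ℝ (Fin m) × ℝ) ×
          (EuclideanSpace ℝ (Fin m) × ℝ) =>
          ‖ext f (w + q.1 - q.2)‖ₑ ^ 2 * ((Φ q.1 : ℝ≥0∞) * Φ q.2) :=
        (hF2.comp ((measurable_const.add measurable_fst).sub measurable_snd)).mul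
          ((hΦe.comp measurable_fst).mul (hΦe.comp measurable_snd))
      rw [lintegral_prod _ mq.aemeasurable]
    · have h1 := hTP.sumset (by linarith) hmeas hS B
      rw [x2] at h1
      exact h1
    · have h1 := hTP.energy_le (by linarith) hS hl
      rw [x3] at h1
      exact h1
  · intro q hq
    have hq2 : 2 < q := by linarith
    set qc : ℝ := 2 + 2 / (m : ℝ) with hqcdef
    have hqc0 : 0 < qc := by linarith
    set r : ℝ := q / (q - 1) with hr
    have hr0 : 0 < r := div_pos (by linarith) (by linarith)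
    have hr1 : 1 / r = 1 - 1 / q := by rw [hr]; field_simp
    have ha : 0 < 1 - 1 / qc := by
      rw [sub_pos, div_lt_one hqc0]; linarith
    have hra : r * (1 - 1 / qc) < 1 := by
      have : 1 - 1 / qc < 1 / r := by
        rw [hr1]
        have := one_div_lt_one_div_of_lt hqc0 hq
        linarith
      rwa [lt_div_iff₀ hr0, mul_comm] at this
    have hrb : 1 < r * 1 := by
      rw [mul_one, hr, lt_div_iff₀ (by linarith)]
      linarith
    set c2 : ℝ := 1 / (1 - r * (1 - 1 / qc)) + 1 / (r * 1 - 1) with hc2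
    have hc2pos : 0 < c2 := add_pos (div_pos one_pos (by linarith)) (div_pos one_pos (by linarith))
    refine ⟨(c2 * (C1 ^ (1 / 2 : ℝ)) ^ (qc / q)).toNNReal, fun A hA f hf K Φ hK hΦ hS => ?_⟩
    obtain ⟨hmeas, hTP, hsup⟩ := basic hm hA hf
    rcases eq_or_ne (volume A) 0 with h0 | h0
    · rw [zero_case h0 hf]
      simp
    set V : ℝ := (volume A).toReal with hV
    have hVpos : 0 < V := ENNReal.toReal_pos h0 hA.1
    have hVe : volume A = ENNReal.ofReal V := (ENNReal.ofReal_toReal hA.1).symm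
    have hKpos : (0 : ℝ) < K := by
      have : (1 : ℝ) ≤ K := by exact_mod_cast hK
      linarith
    have hK1 : (1 : ℝ) ≤ K := by exact_mod_cast hK
    have hmq : (1 : ℝ) - 2 / qc = 1 / (m + 1) := by linarith [x3]
    set X : ℝ := (C1 * V ^ ((m : ℝ) / (m + 1)) * (K : ℝ) ^ (3 - 2 / qc)) ^ (1 / 2 : ℝ) with hX
    have hXpos : 0 < X := by positivity
    have key := Q97.RS.cake_bound (μ := (volume : Measure (EuclideanSpace ℝ (Fin m) × ℝ)))
      hr0 ha hra hrb hmeas hΦ X V hXpos hVpos ?_ ?_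
    · refine key.trans ?_
      rw [hr1]
      refine mul_le_mul_left ?_ _
      have y1 : (1 - (1 - 1 / q)) / (1 - (1 - 1 / qc)) = qc / q := by
        rw [sub_sub_cancel, sub_sub_cancel]
        field_simp
      have y2 : (1 - 1 / q - (1 - 1 / qc)) / (1 - (1 - 1 / qc)) = 1 - qc / q := by
        rw [sub_sub_cancel]
        field_simp
        ring
      rw [y1, y2]
      have z1 : X ^ (qc / q) * V ^ (1 - qc / q) ≤ (C1 ^ (1 / 2 : ℝ)) ^ (qc / q) *
          V ^ (1 - (1 + 2 / (m : ℝ)) / q) * (K : ℝ) ^ (1 + 1 / (2 * ((m : ℝ) + 1))) := by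
        have w1 : X ^ (qc / q) = (C1 ^ (1 / 2 : ℝ)) ^ (qc / q) * V ^ (1 / q) *
            (K : ℝ) ^ ((3 - 2 / qc) * (1 / 2) * (qc / q)) := by
          rw [hX, Real.mul_rpow (by positivity) (by positivity),
            Real.mul_rpow (by positivity) (by positivity),
            Real.mul_rpow (by positivity) (by positivity),
            Real.mul_rpow (by positivity) (by positivity), ← Real.rpow_mul hVpos.le,
            ← Real.rpow_mul hVpos.le, ← Real.rpow_mul hKpos.le, ← Real.rpow_mul hKpos.le]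
          congr 3
          rw [hqcdef]
          field_simp
        have w2 : (K : ℝ) ^ ((3 - 2 / qc) * (1 / 2) * (qc / q)) ≤
            (K : ℝ) ^ (1 + 1 / (2 * ((m : ℝ) + 1))) := by
          refine Real.rpow_le_rpow_of_exponent_le hK1 ?_
          have e1 : (3 - 2 / qc) * (1 / 2) = 1 + 1 / (2 * ((m : ℝ) + 1)) := by
            rw [x3]
            field_simp
          rw [e1]
          have e2 : qc / q ≤ 1 := (div_le_one (by linarith)).2 hq.le
          have e3 : 0 ≤ 1 + 1 / (2 * ((m : ℝ) + 1)) := by positivity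
          nlinarith
        have w3 : V ^ (1 / q) * V ^ (1 - qc / q) = V ^ (1 - (1 + 2 / (m : ℝ)) / q) := by
          rw [← Real.rpow_add hVpos]
          congr 1
          rw [hqcdef]
          field_simp
          ring
        calc X ^ (qc / q) * V ^ (1 - qc / q)
            = (C1 ^ (1 / 2 : ℝ)) ^ (qc / q) * (V ^ (1 / q) * V ^ (1 - qc / q)) *
              (K : ℝ) ^ ((3 - 2 / qc) * (1 / 2) * (qc / q)) := by rw [w1]; ring
          _ ≤ _ := by
            rw [w3]
            exact mul_le_mul_of_nonneg_left w2 (by positivity)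
      calc ENNReal.ofReal (c2 * (X ^ (qc / q) * V ^ (1 - qc / q)))
          ≤ ENNReal.ofReal (c2 * ((C1 ^ (1 / 2 : ℝ)) ^ (qc / q) *
          V ^ (1 - (1 + 2 / (m : ℝ)) / q) * (K : ℝ) ^ (1 + 1 / (2 * ((m : ℝ) + 1))))) :=
            ENNReal.ofReal_le_ofReal (mul_le_mul_of_nonneg_left z1 hc2pos.le)
        _ = _ := by
          rw [hVe, ENNReal.ofReal_rpow_of_pos hVpos, ← ENNReal.ofReal_coe_nnreal (p := K),
            ENNReal.ofReal_rpow_of_pos hKpos]
          change _ = ENNReal.ofReal _ * _ * _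
          rw [← ENNReal.ofReal_mul (by positivity), ← ENNReal.ofReal_mul (by positivity)]
          congr 1
          ring
    · intro t ht hfin
      have hset : {x | t.toNNReal < Φ x} = {x | t < (Φ x : ℝ)} := by
        ext x
        simp only [mem_ofPred_eq]
        rw [Real.toNNReal_lt_iff_lt_coe ht.le]
      have hstr : Q97.RS.StrSet (volume : Measure (EuclideanSpace ℝ (Fin m) × ℝ)) K
          {x | t < (Φ x : ℝ)} := by
        have := hS t.toNNReal
        rw [hset] at this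
        exact this
      have h1 := hTP.str (by linarith) hmeas
        (measurableSet_lt measurable_const hΦ.coe_nnreal_real) hfin hstr
      refine h1.trans (le_of_eq ?_)
      congr 1
      rw [hVe, ENNReal.ofReal_rpow_of_pos hVpos, ← ENNReal.ofReal_coe_nnreal (p := K),
        ENNReal.ofReal_rpow_of_pos hKpos, ← ENNReal.ofReal_mul hC1pos.le,
        ← ENNReal.ofReal_mul (by positivity), ENNReal.ofReal_rpow_of_pos (by positivity)]
    · intro t ht hfin
      rw [ENNReal.rpow_one]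
      calc ∫⁻ x in {x | t < (Φ x : ℝ)}, ‖ext f x‖ₑ ≤ ∫⁻ _ in {x | t < (Φ x : ℝ)}, volume A :=
            lintegral_mono fun x => hsup x
        _ = _ := by rw [setLIntegral_const, hVe]

end Pool.Agent.Results.MP_b7167f_an.AdditiveStructure
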