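import Mathlib
import Pool.Agent.Q89.SM.Q
set_option autoImplicit false

/-!
# The restriction conjecture for the paraboloid: functions of low smoothness in the mean

Let `m ≥ 1`, `d = m + 1`, and let `E` be the extension operator of the truncated paraboloid in
`ℝ^d`. Let `σ > (d-1) / (2(2d-1))`; in every dimension `σ = 1/4` is allowed. The extension estimate
is proved in the whole conjectured range `q > 2d/(d-1)` for

1. bounded functions `f` with `‖f(· + h) - f‖_2 ≤ A |h|^σ`;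
2. bounded functions that are Hölder continuous of order `σ` off a set `Z` whose neighbourhoods
   `{dist(x, Z) ≤ r}` have measure at most `V r^(2σ)`;
3. indicator functions of sets whose boundary has this property (for example all sets with
   boundary of upper Minkowski dimension `< m - (d-1)/(2d-1)`).
-/

namespace Pool.Agent.Results.MP_b7167f_an.IntegralSmoothness

open MeasureTheory Set Complex
open scoped ENNReal NNReal

/-- The closed cube `[-1,1]^m`. -/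
abbrev cube (m : ℕ) : Set (Fin m → ℝ) := Icc (fun _ : Fin m => (-1 : ℝ)) (fun _ => 1)

/-- The extension operator of the truncated paraboloid in `ℝ^(m+1)`:
`Ef(y,t) = ∫_{[-1,1]^m} f(ξ) exp(2πi(ξ·y + |ξ|² t)) dξ`. -/
noncomputable def ext {m : ℕ} (f : (Fin m → ℝ) → ℂ) (z : (Fin m → ℝ) × ℝ) : ℂ :=
  ∫ ξ in cube m,
    f ξ * cexp (2 * Real.pi * I * ((∑ j, ξ j * z.1 j + (∑ j, ξ j ^ 2) * z.2 : ℝ) : ℂ))

lemma ext_eq {m : ℕ} (f : (Fin m → ℝ) → ℂ) (hf : ∀ x, x ∉ cube m → f x = 0)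
    (z : (Fin m → ℝ) × ℝ) : ext f z = Pool.Agent.Q89.SM.X f z.2 z.1 := by
  unfold ext Pool.Agent.Q89.SM.X
  rw [← integral_indicator measurableSet_Icc]
  congr 1
  ext v
  by_cases hv : v ∈ cube m
  · rw [indicator_of_mem hv]
    congr 1
    unfold Pool.Agent.Q89.SM.em Pool.Agent.W771.MD.em Pool.Agent.W771.MD.qe
    rw [← Complex.exp_sum]
    congr 1
    rw [← Finset.mul_sum]
    congr 1
    push_cast
    rw [Finset.sum_add_distrib, Finset.sum_mul]
  · rw [indicator_of_notMem hv, hf v hv, zero_mul]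

lemma norm_eq {m : ℕ} (q : ℝ) (hq : 0 < q) (f : (Fin m → ℝ) → ℂ) (hm : Measurable f)
    (hf : ∀ x, x ∉ cube m → f x = 0) : eLpNorm (ext f) (ENNReal.ofReal q) volume =
      (∫⁻ t, ∫⁻ y, ‖Pool.Agent.Q89.SM.X f t y‖ₑ ^ q) ^ (1 / q) := by
  rw [eLpNorm_eq_lintegral_rpow_enorm_toReal (by simpa using hq) ENNReal.ofReal_ne_top,
    ENNReal.toReal_ofReal hq.le]
  congr 1
  simp only [ext_eq f hf]
  have h1 : Measurable (fun z : (Fin m → ℝ) × ℝ => ‖Pool.Agent.Q89.SM.X f z.2 z.1‖ₑ ^ q) :=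
    ((Pool.Agent.Q89.SM.X_meas f hm).comp measurable_swap).enorm.pow_const q
  rw [Measure.volume_eq_prod, lintegral_prod_symm _ h1.aemeasurable]

/-- **The restriction conjecture for functions of low smoothness.** Let `m ≥ 1`, `d = m + 1`,
`σ > m/(2(2m+1)) = (d-1)/(2(2d-1))` and `q > 2(m+1)/m = 2d/(d-1)`. There is `C` such that the
following holds for all constants `M, A, V ≥ 0` (norms and distances are maximum norms).

1. `‖E f‖_q ≤ C (M + A)` for all measurable `f` on `ℝ^m` with `|f| ≤ M`, `f = 0` off `[-1,1]^m` and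
   `∫ |f(x+h) - f(x)|² dx ≤ (A |h|^σ)²` for `|h| ≤ 1`.
2. `‖E f‖_q ≤ C (M (1 + V) + A)` for all measurable `f` on `ℝ^m` with `|f| ≤ M`, `f = 0` off
   `[-1,1]^m` for which there is a set `Z` with `|{x : dist(x, Z) ≤ r}| ≤ V r^(2σ)` for
   `0 < r ≤ 1` and `|f(x) - f(y)| ≤ A |x-y|^σ` whenever `|x-y| ≤ 1` and the segment `[x,y]` does not
   meet `Z`.
3. `‖E 1_S‖_q ≤ C (1 + V)` for all measurable `S ⊆ [-1,1]^m` whose boundary satisfies
   `|{x : dist(x, ∂S) ≤ r}| ≤ V r^(2σ)` for `0 < r ≤ 1`. -/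
theorem result (m : ℕ) (hm : 1 ≤ m) (σ : ℝ) (hσ : (m : ℝ) / (2 * (2 * m + 1)) < σ) (q : ℝ)
    (hq : 2 * ((m : ℝ) + 1) / m < q) : ∃ C : ℝ≥0,
    (∀ (f : (Fin m → ℝ) → ℂ) (M A : ℝ≥0), Measurable f → (∀ x, ‖f x‖ ≤ M) →
      (∀ x, x ∉ cube m → f x = 0) →
      (∀ h : Fin m → ℝ, ‖h‖ ≤ 1 →
        ∫⁻ x, ‖f (x + h) - f x‖ₑ ^ 2 ≤ (A * ENNReal.ofReal (‖h‖ ^ σ)) ^ 2) →
      eLpNorm (ext f) (ENNReal.ofReal q) volume ≤ C * (M + A)) ∧
    (∀ (f : (Fin m → ℝ) → ℂ) (M A V : ℝ≥0) (Z : Set (Fin m → ℝ)), Measurable f →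
      (∀ x, ‖f x‖ ≤ M) → (∀ x, x ∉ cube m → f x = 0) →
      (∀ r : ℝ, 0 < r → r ≤ 1 →
        volume (Metric.cthickening r Z) ≤ V * ENNReal.ofReal (r ^ (2 * σ))) →
      (∀ x y, ‖x - y‖ ≤ 1 → Disjoint (segment ℝ x y) Z → ‖f x - f y‖ ≤ A * ‖x - y‖ ^ σ) →
      eLpNorm (ext f) (ENNReal.ofReal q) volume ≤ C * (M * (1 + V) + A)) ∧
    (∀ (S : Set (Fin m → ℝ)) (V : ℝ≥0), MeasurableSet S → S ⊆ cube m →
      (∀ r : ℝ, 0 < r → r ≤ 1 →
        volume (Metric.cthickening r (frontier S)) ≤ V * ENNReal.ofReal (r ^ (2 * σ))) →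
      eLpNorm (ext (S.indicator fun _ => (1 : ℂ))) (ENNReal.ofReal q) volume ≤ C * (1 + V)) := by
  have hm0 : (0 : ℝ) < m := by exact_mod_cast hm
  have hq0 : 0 < q := lt_trans (by positivity) hq
  have hσ0 : 0 < σ := lt_trans (by positivity) hσ
  obtain ⟨C, hC⟩ := Pool.Agent.Q89.SM.main2 hm q hq σ hσ
  have H1 : ∀ (f : (Fin m → ℝ) → ℂ) (M A : ℝ≥0), Measurable f → (∀ x, ‖f x‖ ≤ M) →
      (∀ x, x ∉ cube m → f x = 0) →
      (∀ h : Fin m → ℝ, ‖h‖ ≤ 1 →
        ∫⁻ x, ‖f (x + h) - f x‖ₑ ^ 2 ≤ (A * ENNReal.ofReal (‖h‖ ^ σ)) ^ 2) →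
      eLpNorm (ext f) (ENNReal.ofReal q) volume ≤ C * (M + A) := by
    intro f M A hf hM hs hh
    rw [norm_eq q hq0 f hf hs]
    exact hC f M A hf hM hs hh
  have H2 : ∀ (f : (Fin m → ℝ) → ℂ) (M A V : ℝ≥0) (Z : Set (Fin m → ℝ)), Measurable f →
      (∀ x, ‖f x‖ ≤ M) → (∀ x, x ∉ cube m → f x = 0) →
      (∀ r : ℝ, 0 < r → r ≤ 1 →
        volume (Metric.cthickening r Z) ≤ V * ENNReal.ofReal (r ^ (2 * σ))) →
      (∀ x y, ‖x - y‖ ≤ 1 → Disjoint (segment ℝ x y) Z → ‖f x - f y‖ ≤ A * ‖x - y‖ ^ σ) →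
      eLpNorm (ext f) (ENNReal.ofReal q) volume ≤
        ((C * (2 + 2 ^ m) : ℝ≥0) : ℝ≥0∞) * (M * (1 + V) + A) := by
    intro f M A V Z hf hM hs hZ hH
    have h1 := H1 f M (2 * M * (1 + V) + 2 ^ m * A) hf hM hs (fun h hh =>
      Pool.Agent.Q89.SM.piece σ f M A (1 + V) Z hM hs (fun r hr0 hr1 => by
        refine (hZ r hr0 hr1).trans ?_
        rw [mul_pow]
        have e1 : ENNReal.ofReal (r ^ (2 * σ)) = ENNReal.ofReal (r ^ σ) ^ 2 := by
          rw [← ENNReal.ofReal_pow (by positivity), ← Real.rpow_natCast, ← Real.rpow_mul hr0.le]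
          congr 2
          push_cast
          ring
        rw [e1]
        gcongr
        push_cast
        calc (V : ℝ≥0∞) = 1 * V := (one_mul _).symm
          _ ≤ (1 + V) * (1 + V) := by
              gcongr
              · exact le_self_add
              · exact le_add_self
          _ = (1 + V) ^ 2 := (sq _).symm) hH h hh)
    have h2 : (M : ℝ≥0∞) + (2 * M * (1 + V) + 2 ^ m * A) ≤ (2 + 2 ^ m) * (M * (1 + V) + A) := by
      have a1 : (M : ℝ≥0∞) ≤ 2 ^ m * (M * (1 + V)) := by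
        calc (M : ℝ≥0∞) = 1 * (M * 1) := by ring
          _ ≤ 2 ^ m * (M * (1 + V)) := by
              gcongr
              · exact one_le_pow₀ one_le_two
              · exact le_self_add
      calc (M : ℝ≥0∞) + (2 * M * (1 + V) + 2 ^ m * A) ≤
          2 ^ m * (M * (1 + V)) + (2 * M * (1 + V) + 2 ^ m * A) := add_le_add a1 le_rfl
        _ ≤ 2 ^ m * (M * (1 + V)) + (2 * M * (1 + V) + 2 ^ m * A) + 2 * A := le_self_add
        _ = (2 + 2 ^ m) * (M * (1 + V) + A) := by ring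
    calc eLpNorm (ext f) (ENNReal.ofReal q) volume ≤
        C * (M + ((2 * M * (1 + V) + 2 ^ m * A : ℝ≥0) : ℝ≥0∞)) := h1
      _ = C * (M + (2 * M * (1 + V) + 2 ^ m * A)) := by push_cast; rfl
      _ ≤ C * ((2 + 2 ^ m) * (M * (1 + V) + A)) := by gcongr
      _ = _ := by
          push_cast
          ring
  refine ⟨C * (2 + 2 ^ m), ?_, H2, ?_⟩
  · intro f M A hf hM hs hh
    refine (H1 f M A hf hM hs hh).trans ?_
    gcongr
    calc C = C * 1 := (mul_one _).symm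
      _ ≤ C * (2 + 2 ^ m) := by
          gcongr
          exact one_le_two.trans le_self_add
  · intro S V hS hsub hZ
    have h1 := H2 (S.indicator fun _ => (1 : ℂ)) 1 0 V (frontier S)
      (measurable_const.indicator hS) (fun x => by
        by_cases hx : x ∈ S
        · rw [indicator_of_mem hx]
          simp
        · rw [indicator_of_notMem hx]
          simp) (fun x hx => indicator_of_notMem (fun h => hx (hsub h)) _) hZ
      (fun x y _ hd => by
        rw [Pool.Agent.Q89.SM.ind_const x y hd, sub_self, norm_zero]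
        positivity)
    refine h1.trans (le_of_eq ?_)
    push_cast
    ring

end Pool.Agent.Results.MP_b7167f_an.IntegralSmoothness
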