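import Mathlib
import Pool.Agent.Q85.RV.E
set_option autoImplicit false

/-! The restriction conjecture for the paraboloid in `ℝ^d`, `d = n + 1 ≥ 3`, in the full range
`q > 2d/(d-1)`, for products of functions of one coordinate and of functions `K(z_i, z_j)` of two
coordinates which are of bounded variation in `z_i` after an arbitrary measurable rearrangement of
this coordinate, and arbitrary in `z_j`; for instance `K(z_i, z_j) = 1` if `φ(z_i) < ψ(z_j)` and `0`
if not, with arbitrary measurable functions `φ` and `ψ`. -/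

namespace Pool.Agent.Results.MP_b7167f_an.RearrangedVariation

open MeasureTheory Set Complex Matrix
open scoped ENNReal NNReal

/-- The extension operator of the paraboloid in `ℝ^(n+1)`. For functions which vanish outside the
cube `[-1,1]^n` it is the extension operator of the problem. -/
noncomputable def ext {n : ℕ} (f : (Fin n → ℝ) → ℂ) (y : (Fin n → ℝ) × ℝ) : ℂ :=
  ∫ ξ : Fin n → ℝ,
    f ξ * cexp (2 * Real.pi * I * ((∑ j, ξ j * y.1 j + (∑ j, ξ j ^ 2) * y.2 : ℝ) : ℂ))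

/-- The interval `[-1, 1]`. -/
def J : Set ℝ := Icc (-1) 1

/-- The `L^p` norm on `[-1, 1]`. -/
noncomputable def norm {H : Type} [NormedAddCommGroup H] (p : ℝ) (a : ℝ → H) : ℝ≥0∞ :=
  eLpNorm a (ENNReal.ofReal p) (volume.restrict J)

/-- `K(s, t)` is bounded by one, and its variation in `s` is controlled by a function `G(s, t)` with
values in `[0, 1]` whose sections `G(s, ·)` are totally ordered. -/
def Controlled (K : ℝ → ℝ → ℂ) : Prop :=
  Measurable (Function.uncurry K) ∧ (∀ s ∈ J, ∀ t ∈ J, ‖K s t‖ ≤ 1) ∧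
  ∃ G : ℝ → ℝ → ℝ, Measurable (Function.uncurry G) ∧
    (∀ s ∈ J, ∀ t ∈ J, 0 ≤ G s t ∧ G s t ≤ 1) ∧
    (∀ s ∈ J, ∀ s' ∈ J, (∀ t ∈ J, G s t ≤ G s' t) ∨ (∀ t ∈ J, G s' t ≤ G s t)) ∧
    ∀ s ∈ J, ∀ s' ∈ J, ∀ t ∈ J, ‖K s t - K s' t‖ ≤ |G s t - G s' t|

/-- `M(a_1(z_1), …, a_n(z_n)) ∏_l K_l(z_(i l), z_(j l))` with `z = O ξ`, restricted to
`z ∈ [-1,1]^n`. -/
noncomputable def kernel {H : Type} [NormedAddCommGroup H] [InnerProductSpace ℂ H] {n N : ℕ}
    (M : ContinuousMultilinearMap ℂ (fun _ : Fin n => H) ℂ) (a : Fin n → ℝ → H)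
    (i j : Fin N → Fin n) (K : Fin N → ℝ → ℝ → ℂ) (O : Matrix (Fin n) (Fin n) ℝ)
    (ξ : Fin n → ℝ) : ℂ :=
  (Icc (-1 : Fin n → ℝ) 1).indicator
    (fun z => (M fun l => a l (z l)) * ∏ l, K l (z (i l)) (z (j l))) (O *ᵥ ξ)

/-- (1) The extension estimate. (2) The functions `F(φ(s), ψ(t))`, where `F` is monotone in the
first variable and `φ`, `ψ` are arbitrary measurable functions, are controlled. -/
theorem result :
    (∀ (n : ℕ), 2 ≤ n → ∀ (N : ℕ) (q p : ℝ), 2 * ((n : ℝ) + 1) / n < q → 2 < p →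
      1 / p < 1 - ((n : ℝ) + 2) / (n * q) → ∃ C : ℝ≥0, ∀ (H : Type)
      [NormedAddCommGroup H] [InnerProductSpace ℂ H] [CompleteSpace H]
      (M : ℕ → ContinuousMultilinearMap ℂ (fun _ : Fin n => H) ℂ) (a : ℕ → Fin n → ℝ → H)
      (O : ℕ → Matrix (Fin n) (Fin n) ℝ) (i j : ℕ → Fin N → Fin n)
      (K : ℕ → Fin N → ℝ → ℝ → ℂ) (f : (Fin n → ℝ) → ℂ),
      (∀ k x, ‖M k x‖ ≤ ∏ l, ‖x l‖) → (∀ k, (O k)ᵀ * O k = 1) →
      (∀ k l, StronglyMeasurable (a k l)) → (∀ k l, norm p (a k l) < ⊤) →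
      (∀ k l, i k l ≠ j k l) → (∀ k l, Controlled (K k l)) →
      (∀ᵐ ξ, f ξ = ∑' k, kernel (M k) (a k) (i k) (j k) (K k) (O k) ξ) →
      eLpNorm (ext f) (ENNReal.ofReal q) volume ≤ C * ∑' k, ∏ l, norm p (a k l)) ∧
    (∀ (F : ℝ → ℝ → ℝ) (φ ψ : ℝ → ℝ), Measurable (Function.uncurry F) → Measurable φ →
      Measurable ψ → (∀ x y, 0 ≤ F x y ∧ F x y ≤ 1) →
      ((∀ y, Monotone fun x => F x y) ∨ (∀ y, Antitone fun x => F x y)) →
      Controlled fun s t => (F (φ s) (ψ t) : ℂ)) := by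
  constructor
  · intro n hn N q p h1 h2 h3
    obtain ⟨C, hC⟩ := Pool.Agent.Q85.RV.mainRV n hn N q p ⟨h1, h2, h3⟩
    refine ⟨C, ?_⟩
    intro H _ _ _ M a O i j K f hM hO ha hN hij hK hf
    choose hKm hK1 G hG using hK
    have h4 : ext f = Pool.Agent.Q85.HN.EN f := by
      ext y
      unfold ext Pool.Agent.Q85.HN.EN Pool.Agent.Q85.HN.pn Pool.Agent.TH277.HT.ch
      simp only [mul_comm (f _)]
    rw [h4]
    exact hC H M a O i j K G f hM hO ha (fun k l => (hN k l).ne) hij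
      (fun k l => ⟨hKm k l, (hG k l).1, hK1 k l, (hG k l).2.1, (hG k l).2.2.1, (hG k l).2.2.2⟩) hf
  · intro F φ ψ hF hφ hψ h01 hmono
    have hm : Measurable fun z : ℝ × ℝ => F (φ z.1) (ψ z.2) :=
      hF.comp ((hφ.comp measurable_fst).prodMk (hψ.comp measurable_snd))
    refine ⟨Complex.measurable_ofReal.comp hm, ?_, fun s t => F (φ s) (ψ t), hm, ?_, ?_, ?_⟩
    · intro s _ t _
      rw [Complex.norm_real, Real.norm_eq_abs, abs_of_nonneg (h01 _ _).1]
      exact (h01 _ _).2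
    · intro s _ t _
      exact h01 _ _
    · intro s _ s' _
      rcases hmono with hm | hm
      · rcases le_total (φ s) (φ s') with h | h
        · exact Or.inl fun t _ => hm _ h
        · exact Or.inr fun t _ => hm _ h
      · rcases le_total (φ s) (φ s') with h | h
        · exact Or.inr fun t _ => hm _ h
        · exact Or.inl fun t _ => hm _ h
    · intro s _ s' _ t _
      rw [← Complex.ofReal_sub, Complex.norm_real, Real.norm_eq_abs]

end Pool.Agent.Results.MP_b7167f_an.RearrangedVariation
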