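import Mathlib
import Pool.Agent.Q63.Mix.Tnsr
set_option autoImplicit false

/-!
# The restriction conjecture for functions that are rough in angles

The restriction estimate for the paraboloid in `ℝ^d`, `d = n + 1 ≥ 3`, in the full conjectured
range `q > 2d/(d-1)`, for superpositions of tensor products over blocks of coordinates.  The
factor belonging to a block `(x, y)`, `x ∈ ℝ²`, `y ∈ ℝ^k`, is
`b(θ) 1{|x - a| < ρ(θ)} ∏_j 1{y_j < η_j(θ)}`, `θ = arg(x - a)`, with arbitrary measurable `b`, `ρ`,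
`η_j`, `|b| ≤ 1`: no regularity in the angle is required.  The factor belonging to a block of one
coordinate is an arbitrary measurable function bounded by `1`.
-/

namespace Pool.Agent.Results.MP_b7167f_an.RoughAngles

open MeasureTheory Set
open scoped ENNReal NNReal

/-- The closed cube `[-1,1]^n`. -/
abbrev cube (n : ℕ) : Set (Fin n → ℝ) := Icc (fun _ : Fin n => (-1 : ℝ)) (fun _ => 1)

/-- The extension operator of the truncated paraboloid in `ℝ^(n+1)`:
`Ef(x,t) = ∫_{[-1,1]^n} f(ξ) exp(2πi(ξ·x + |ξ|² t)) dξ`. -/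
noncomputable def ext {n : ℕ} (f : (Fin n → ℝ) → ℂ) (y : (Fin n → ℝ) × ℝ) : ℂ :=
  ∫ ξ in cube n, f ξ *
    Complex.exp (2 * Real.pi * Complex.I * ((∑ j, ξ j * y.1 j + (∑ j, ξ j ^ 2) * y.2 : ℝ) : ℂ))

/-- The point `x = (ξ 0, ξ 1)` of the plane `ℝ² = ℂ` made of the first two of `k + 2` variables. -/
def pl {k : ℕ} (ξ : Fin (k + 2) → ℝ) : ℂ := ⟨ξ 0, ξ 1⟩

/-- Functions of the `k + 2` variables `ξ = (x, y)`, `x ∈ ℝ²`, `y ∈ ℝ^k`, which are arbitrary in the
angle `θ = arg(x - a)` and of box type in `(|x - a|, y)` for each angle: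
`F(x, y) = b(θ) 1{|x - a| < ρ(θ)} ∏_j 1{y_j < η_j(θ)}`. -/
def AngularBox (k : ℕ) (F : (Fin (k + 2) → ℝ) → ℂ) : Prop :=
  ∃ (a : ℂ) (b : ℝ → ℂ) (ρ : ℝ → ℝ) (η : Fin k → ℝ → ℝ),
    |a.re| ≤ 1 ∧ |a.im| ≤ 1 ∧ Measurable b ∧ (∀ θ, ‖b θ‖ ≤ 1) ∧ Measurable ρ ∧
    (∀ j, Measurable (η j)) ∧
    ∀ ξ, F ξ = b (Complex.arg (pl ξ - a)) *
      (if ‖pl ξ - a‖ < ρ (Complex.arg (pl ξ - a)) then 1 else 0) *
      ∏ j : Fin k, (if ξ j.succ.succ < η j (Complex.arg (pl ξ - a)) then 1 else 0)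

/-- Elementary functions of a block of `m` variables: all measurable functions bounded by `1` for
`m = 1`, the functions `AngularBox k` for `m = k + 2`. -/
def Elementary : (m : ℕ) → ((Fin m → ℝ) → ℂ) → Prop
  | 0, _ => False
  | 1, F => Measurable F ∧ ∀ ξ, ‖F ξ‖ ≤ 1
  | k + 2, F => AngularBox k F

theorem good : ∀ m : ℕ, Q63.Mix.Gd m (Elementary m)
  | 0 =>
    { meas := fun _ h => h.elim
      le := fun _ h => h.elim
      two := ⟨1, one_pos, fun _ h => h.elim⟩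
      four := fun _ _ _ => ⟨1, one_pos, fun _ _ _ h => h.elim⟩ }
  | 1 => Q63.Mix.good_line
  | k + 2 => by
    have h1 : ∀ F, Elementary (k + 2) F → Q63.Mix.Pln k F := by
      rintro F ⟨a, b, ρ, η, ha, ha', hb, hb1, hρ, hη, hF⟩
      exact ⟨a, b, ρ, η, ⟨abs_le.1 ha, abs_le.1 ha'⟩, hb, hb1, hρ, hη, funext hF⟩
    have h := Q63.Mix.good_pln k
    obtain ⟨M, hM, h2⟩ := h.two
    refine ⟨fun F hF => h.meas F (h1 F hF), fun F hF => h.le F (h1 F hF),
      ⟨M, hM, fun F hF => h2 F (h1 F hF)⟩, fun ε hε hε1 => ?_⟩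
    obtain ⟨K, hK, h4⟩ := h.four ε hε hε1
    exact ⟨K, hK, fun R hR F hF => h4 R hR F (h1 F hF)⟩

/-- **The restriction conjecture for superpositions of tensor products of functions that are rough
in an angle.** Let the `n` coordinates be split by `e` into `N < n` blocks of `m 0, …, m (N-1)`
coordinates, let `d = n + 1` and `q > 2d/(d-1)`.  There is `C` such that `∫_{ℝ^d} |E f|^q ≤ C` for
every `f(ξ) = ∫_Ω ∏_i F_{ω,i}(block i of ξ) dP(ω)`, where `P` is a probability measure and every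
`F_{ω,i}` is `Elementary`, measurably in `ω`. -/
theorem result {N n : ℕ} (m : Fin N → ℕ) (e : (Σ i, Fin (m i)) ≃ Fin n) (hN : N < n) (q : ℝ)
    (hq : 2 * ((n : ℝ) + 1) / n < q) :
    ∃ C : ℝ≥0, ∀ (Ω : Type) [MeasurableSpace Ω] (P : Measure Ω) [IsProbabilityMeasure P]
      (F : Ω → ∀ i, (Fin (m i) → ℝ) → ℂ),
      (∀ ω i, Elementary (m i) (F ω i)) →
      (∀ i, Measurable (fun p : Ω × (Fin (m i) → ℝ) => F p.1 i p.2)) →
      ∫⁻ y : (Fin n → ℝ) × ℝ,
        ‖ext (fun ξ => ∫ ω, ∏ i, F ω i (fun j => ξ (e ⟨i, j⟩)) ∂P) y‖ₑ ^ q ≤ C := by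
  have hN0 : 0 < N := by
    rcases Nat.eq_zero_or_pos N with h | h
    · subst h
      have h1 := Fintype.card_congr e
      simp at h1
      omega
    · exact h
  have hn0 : (0 : ℝ) < n := by exact_mod_cast (by omega : 0 < n)
  have hq' : 2 + 2 / (n : ℝ) < q := by
    refine lt_of_eq_of_lt ?_ hq
    field_simp
  have hq1 : 1 < q := by
    have : 0 < 2 / (n : ℝ) := by positivity
    linarith
  obtain ⟨C, hC, h⟩ := Q63.Mix.tens m e hN0 hN (fun i => Elementary (m i)) (fun i => good (m i)) q hq'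
  refine ⟨C.toNNReal, ?_⟩
  intro Ω _ P _ F hF hFm
  rw [ENNReal.coe_toNNReal hC]
  refine Q63.Mix.superp q hq1 C P (fun ω ξ => ∏ i, F ω i (fun j => ξ (e ⟨i, j⟩))) ?_ ?_ ?_
  · refine Finset.measurable_prod _ fun i _ => ?_
    exact (hFm i).comp (f := fun p : Ω × (Fin n → ℝ) =>
      (p.1, fun j : Fin (m i) => p.2 (e ⟨i, j⟩))) (by fun_prop)
  · intro ω ξ
    rw [norm_prod]
    exact Finset.prod_le_one (fun i _ => norm_nonneg _) fun i _ => (good (m i)).le _ (hF ω i) _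
  · intro ω
    exact h (F ω) (hF ω)

end Pool.Agent.Results.MP_b7167f_an.RoughAngles
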